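import Mathlib

/-!
# A reversible square partitioned cellular automaton in which every pattern is confined

A particle of a cell `x` in the part `d` (`0` top, `1` right, `2` bottom, `3` left) moves to the
neighbour of `x` in the direction `d`.  The local rule reflects single particles, exchanges the
pair `{j - 1, j}` and the triple of all directions except `j`, and fixes all other states.
-/

set_option autoImplicit false

namespace Pool.Agent.Q136.ESP

/-- a state of a cell: its particles, by direction -/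
abbrev S := Fin 4 → Bool

def dx : Fin 4 → ℤ := ![0, 1, 0, -1]
def dy : Fin 4 → ℤ := ![1, 0, -1, 0]

/-- the neighbour in direction `d` -/
def nb (x : ℤ × ℤ) (d : Fin 4) : ℤ × ℤ := (x.1 + dx d, x.2 + dy d)

/-- the global map -/
def G (f : S → S) (a : ℤ × ℤ → S) (x : ℤ × ℤ) : S := f (fun d => a (nb x d) (d + 2))

def pair (j : Fin 4) : S := fun i => decide (i = j ∨ i = j - 1)
def miss (j : Fin 4) : S := fun i => decide (i ≠ j)
def none : S := fun _ => false
def full : S := fun _ => true

/-- the local rule -/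
def rule (s : S) : S :=
  if s = pair 0 then miss 0 else if s = pair 1 then miss 1 else if s = pair 2 then miss 2
  else if s = pair 3 then miss 3 else if s = miss 0 then pair 0 else if s = miss 1 then pair 1
  else if s = miss 2 then pair 2 else if s = miss 3 then pair 3 else s

theorem rule_rule : ∀ s : S, rule (rule s) = s := by decide

theorem rule_none : rule none = none := by decide

theorem rule_single : ∀ (s : S) (e : Fin 4), (∀ i, s i = true → i = e) → rule s = s := by decide

theorem rule_inj : Function.Injective rule := fun a b h => by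
  rw [← rule_rule a, h, rule_rule]

theorem nb_nb (x : ℤ × ℤ) (d : Fin 4) : nb (nb x d) (d + 2) = x := by
  rcases x with ⟨x1, x2⟩
  fin_cases d <;> simp [nb, dx, dy]

theorem add_two_two (d : Fin 4) : d + 2 + 2 = d := by revert d; decide

theorem G_inj : Function.Injective (G rule) := by
  intro a b h
  funext x
  funext d
  have h1 := congrFun h (nb x d)
  have h2 := congrFun (rule_inj h1) (d + 2)
  simp only [nb_nb, add_two_two] at h2
  exact h2

/-! ### Confinement -/

/-- the square of radius `N` -/
def inB (N : ℤ) (x : ℤ × ℤ) : Prop := |x.1| ≤ N ∧ |x.2| ≤ N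

/-- all particles are on edges that meet the square -/
def Inv (N : ℤ) (a : ℤ × ℤ → S) : Prop := ∀ x d, a x d = true → inB N x ∨ inB N (nb x d)

theorem unique_nb {N : ℤ} {x : ℤ × ℤ} (hx : ¬ inB N x) {e e' : Fin 4} (h : inB N (nb x e))
    (h' : inB N (nb x e')) : e = e' := by
  rcases x with ⟨x1, x2⟩
  unfold inB at *
  simp only [abs_le] at *
  fin_cases e <;> fin_cases e' <;> simp [nb, dx, dy] at h h' hx ⊢ <;> omega

theorem inv_step {N : ℤ} {a : ℤ × ℤ → S} (h : Inv N a) : Inv N (G rule a) := by
  intro x d hd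
  by_contra hcon
  push Not at hcon
  obtain ⟨hx, hn⟩ := hcon
  obtain ⟨β, hβ⟩ : ∃ β : S, β = fun d => a (nb x d) (d + 2) := ⟨_, rfl⟩
  have hin : ∀ e, β e = true → inB N (nb x e) := by
    intro e he
    rw [hβ] at he
    rcases h _ _ he with h1 | h1
    · exact h1
    · rw [nb_nb] at h1
      exact absurd h1 hx
  have hG : G rule a x = rule β := by rw [hβ]; rfl
  rw [hG] at hd
  have hs : rule β = β := by
    by_cases hex : ∃ e, β e = true
    · obtain ⟨e, he⟩ := hex
      exact rule_single β e fun i hi => unique_nb hx (hin i hi) (hin e he)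
    · exact rule_single β 0 fun i hi => absurd ⟨i, hi⟩ hex
  rw [hs] at hd
  exact hn (hin d hd)

theorem inv_iter {N : ℤ} {a : ℤ × ℤ → S} (h : Inv N a) (t : ℕ) : Inv N ((G rule)^[t] a) := by
  induction t with
  | zero => exact h
  | succ t ih =>
      rw [Function.iterate_succ_apply']
      exact inv_step ih

/-- the finite box that contains all particles -/
noncomputable def box (N : ℤ) : Finset (ℤ × ℤ) :=
  Finset.Icc (-(N + 1)) (N + 1) ×ˢ Finset.Icc (-(N + 1)) (N + 1)

theorem inv_zero {N : ℤ} {a : ℤ × ℤ → S} (h : Inv N a) {x : ℤ × ℤ} (hx : x ∉ box N) :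
    a x = none := by
  funext d
  by_contra hd
  have hd' : a x d = true := by
    cases hh : a x d
    · exact absurd hh hd
    · rfl
  apply hx
  have h1 := h x d hd'
  rcases x with ⟨x1, x2⟩
  unfold inB at h1
  simp only [abs_le] at h1
  simp only [box, Finset.mem_product, Finset.mem_Icc]
  fin_cases d <;> simp [nb, dx, dy] at h1 <;> omega

theorem finite_inv (N : ℤ) : Finite {a : ℤ × ℤ → S // Inv N a} := by
  have hinj : Function.Injective
      (fun (a : {a : ℤ × ℤ → S // Inv N a}) (p : {x // x ∈ box N}) => a.1 p.1) := by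
    intro a b h
    apply Subtype.ext
    funext x
    by_cases hx : x ∈ box N
    · exact congrFun h ⟨x, hx⟩
    · rw [inv_zero a.2 hx, inv_zero b.2 hx]
  exact Finite.of_injective _ hinj

theorem periodic_of_inv {N : ℤ} {a : ℤ × ℤ → S} (h : Inv N a) :
    ∃ p ≥ 1, (G rule)^[p] a = a := by
  have := finite_inv N
  let g : {a : ℤ × ℤ → S // Inv N a} → {a : ℤ × ℤ → S // Inv N a} :=
    fun a => ⟨G rule a.1, inv_step a.2⟩
  have hg : Function.Injective g := fun a b hab => Subtype.ext (G_inj (congrArg Subtype.val hab))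
  obtain ⟨p, hp, hper⟩ := Function.mem_periodicPts.1
    (Function.Injective.mem_periodicPts hg ⟨a, h⟩)
  refine ⟨p, hp, ?_⟩
  have hval : ∀ (n : ℕ) (b : {a : ℤ × ℤ → S // Inv N a}), (g^[n] b).1 = (G rule)^[n] b.1 := by
    intro n
    induction n with
    | zero => intro b; rfl
    | succ n ih =>
        intro b
        rw [Function.iterate_succ_apply, Function.iterate_succ_apply, ih]
  have h2 := congrArg Subtype.val hper
  rw [hval] at h2
  exact h2

theorem exists_inv {a : ℤ × ℤ → S} (h : {x | a x ≠ none}.Finite) : ∃ N, Inv N a := by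
  obtain ⟨N, hN⟩ : ∃ N : ℤ, ∀ x ∈ {x | a x ≠ none}, inB N x := by
    have hb : ({x | a x ≠ none}.image (fun x : ℤ × ℤ => max |x.1| |x.2|)).Finite := h.image _
    obtain ⟨N, hN⟩ := hb.bddAbove
    refine ⟨N, fun x hx => ?_⟩
    have h1 := hN (Set.mem_image_of_mem _ hx)
    exact ⟨(le_max_left _ _).trans h1, (le_max_right _ _).trans h1⟩
  refine ⟨N, fun x d hd => Or.inl (hN x ?_)⟩
  intro h0
  rw [h0] at hd
  exact absurd hd (by simp [none])

/-- every finite configuration is periodic -/
theorem periodic {a : ℤ × ℤ → S} (h : {x | a x ≠ none}.Finite) :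
    ∃ p ≥ 1, (G rule)^[p] a = a := by
  obtain ⟨N, hN⟩ := exists_inv h
  exact periodic_of_inv hN

theorem finite_iter {a : ℤ × ℤ → S} (h : {x | a x ≠ none}.Finite) (t : ℕ) :
    {x | (G rule)^[t] a x ≠ none}.Finite := by
  obtain ⟨N, hN⟩ := exists_inv h
  refine (box N).finite_toSet.subset fun x hx => ?_
  by_contra hx'
  exact hx (inv_zero (inv_iter hN t) hx')

theorem G_none : G rule (fun _ => none) = fun _ => none := by
  funext x
  exact rule_none

theorem ne_none_iter {a : ℤ × ℤ → S} (h : a ≠ fun _ => none) (t : ℕ) :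
    (G rule)^[t] a ≠ fun _ => none := by
  intro h0
  apply h
  have h1 : (G rule)^[t] (fun _ => none) = fun _ => none := Function.iterate_fixed G_none t
  exact (G_inj.iterate t) (h0.trans h1.symm)

/-! ### A growing diagonal band -/

/-- the state at time `t` of the cells with `x - y = k` in the band -/
def band (t : ℕ) (k : ℤ) : S := fun d =>
  decide ((k + t) % 2 = 1 ∧ -(t + 3) ≤ k ∧ k ≤ t + 3 ∧ ¬ (k = -(t + 3) ∧ d = 2) ∧
    ¬ (k = -(t + 1) ∧ d = 3) ∧ ¬ (k = t + 1 ∧ d = 1) ∧ ¬ (k = t + 3 ∧ d = 0))

theorem band_eq_none {t : ℕ} {k : ℤ} (h : (k + t) % 2 ≠ 1) : band t k = none := by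
  funext d
  simp only [band, none, decide_eq_false_iff_not]
  tauto

theorem rule_pair : ∀ j, rule (pair j) = miss j := by decide

theorem rule_full : rule full = full := by decide

/-- the local rule on the band -/
theorem band_step (t : ℕ) (k : ℤ) :
    rule (fun d => band t (k + (dx d - dy d)) (d + 2)) = band (t + 1) k := by
  obtain ⟨β, hβ⟩ : ∃ β : S, β = fun d => band t (k + (dx d - dy d)) (d + 2) := ⟨_, rfl⟩
  rw [← hβ]
  by_cases hpar : (k + t) % 2 = 0
  swap
  · have h1 : β = none := by
      rw [hβ]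
      funext d
      have : band t (k + (dx d - dy d)) = none := by
        apply band_eq_none
        fin_cases d <;> simp [dx, dy] <;> omega
      rw [this]
      rfl
    rw [h1, rule_none, band_eq_none]
    push_cast
    omega
  have hcase : k < -(t + 4) ∨ k = -(t + 4) ∨ k = -(t + 2) ∨ (-t ≤ k ∧ k ≤ t) ∨ k = t + 2 ∨
      k = t + 4 ∨ t + 4 < k := by omega
  rcases hcase with h | h | h | h | h | h | h
  · have h1 : β = none := by
      rw [hβ]
      funext d
      fin_cases d <;> simp [dx, dy, band, none] <;> omega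
    rw [h1, rule_none]
    funext d
    fin_cases d <;> simp [band, none] <;> omega
  · have h1 : β = pair 2 := by
      rw [hβ]
      funext d
      fin_cases d <;> simp [dx, dy, band, pair] <;> omega
    rw [h1, rule_pair]
    funext d
    fin_cases d <;> simp [band, miss] <;> omega
  · have h1 : β = pair 3 := by
      rw [hβ]
      funext d
      fin_cases d <;> simp [dx, dy, band, pair] <;> omega
    rw [h1, rule_pair]
    funext d
    fin_cases d <;> simp [band, miss] <;> omega
  · have h1 : β = full := by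
      rw [hβ]
      funext d
      fin_cases d <;> simp [dx, dy, band, full] <;> omega
    rw [h1, rule_full]
    funext d
    fin_cases d <;> simp [band, full] <;> omega
  · have h1 : β = pair 1 := by
      rw [hβ]
      funext d
      fin_cases d <;> simp [dx, dy, band, pair] <;> omega
    rw [h1, rule_pair]
    funext d
    fin_cases d <;> simp [band, miss] <;> omega
  · have h1 : β = pair 0 := by
      have hp : pair 0 = ![true, false, false, true] := by decide
      rw [hβ, hp]
      funext d
      fin_cases d <;> simp [dx, dy, band] <;> omega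
    rw [h1, rule_pair]
    funext d
    fin_cases d <;> simp [band, miss] <;> omega
  · have h1 : β = none := by
      rw [hβ]
      funext d
      fin_cases d <;> simp [dx, dy, band, none] <;> omega
    rw [h1, rule_none]
    funext d
    fin_cases d <;> simp [band, none] <;> omega

/-- the initial configuration: a diagonal strip of length `2 L` -/
def ini (L : ℕ) : ℤ × ℤ → S := fun x =>
  if 0 ≤ x.1 + x.2 ∧ x.1 + x.2 < 2 * L then band 0 (x.1 - x.2) else none

theorem iter_ini (L t : ℕ) : ∀ (x : ℤ × ℤ), (t : ℤ) ≤ x.1 + x.2 → x.1 + x.2 + t < 2 * L →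
    (G rule)^[t] (ini L) x = band t (x.1 - x.2) := by
  induction t with
  | zero =>
      intro x h1 h2
      simp only [Function.iterate_zero, id_eq, ini]
      rw [if_pos]
      constructor
      · simpa using h1
      · simpa using h2
  | succ t ih =>
      intro x h1 h2
      rw [Function.iterate_succ_apply']
      change rule (fun d => (G rule)^[t] (ini L) (nb x d) (d + 2)) = _
      rw [← band_step]
      congr 1
      funext d
      push_cast at h1 h2
      have h3 : (nb x d).1 - (nb x d).2 = x.1 - x.2 + (dx d - dy d) := by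
        simp only [nb]
        ring
      rw [ih, h3]
      · fin_cases d <;> simp [nb, dx, dy] <;> omega
      · fin_cases d <;> simp [nb, dx, dy] <;> omega

theorem ini_finite (L : ℕ) : {x | ini L x ≠ none}.Finite := by
  refine (Finset.Icc (-(2 * L + 4 : ℤ)) (2 * L + 4) ×ˢ
    Finset.Icc (-(2 * L + 4 : ℤ)) (2 * L + 4)).finite_toSet.subset ?_
  rintro ⟨x1, x2⟩ hx
  simp only [Set.mem_setOf_eq, ini] at hx
  split_ifs at hx with h
  · have h2 : -3 ≤ x1 - x2 ∧ x1 - x2 ≤ 3 := by
      by_contra hcon
      apply hx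
      funext d
      simp only [band, none, decide_eq_false_iff_not]
      push_cast
      rintro ⟨-, h3, h4, -⟩
      exact hcon ⟨by linarith, by linarith⟩
    simp only [Finset.coe_product, Finset.coe_Icc, Set.mem_prod, Set.mem_Icc]
    omega
  · exact absurd rfl hx

/-! ### Populations -/

/-- the number of particles of a state -/
def wt (s : S) : ℕ := ∑ i, (s i).toNat

theorem wt_le : ∀ s : S, wt s ≤ 4 := by decide
theorem wt_none : wt none = 0 := by decide
theorem wt_full : wt full = 4 := by decide
theorem wt_pos : ∀ s : S, s ≠ none → 1 ≤ wt s := by decide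

/-- the number of particles of a configuration -/
noncomputable def pop (a : ℤ × ℤ → S) : ℕ := ∑ᶠ x, wt (a x)

theorem pop_eq {a : ℤ × ℤ → S} (F : Finset (ℤ × ℤ)) (h : ∀ x, a x ≠ none → x ∈ F) :
    pop a = ∑ x ∈ F, wt (a x) := by
  apply finsum_eq_sum_of_support_subset
  intro x hx
  simp only [Function.mem_support] at hx
  apply h
  intro h0
  rw [h0] at hx
  exact hx wt_none

theorem pop_le_card {a : ℤ × ℤ → S} (F : Finset (ℤ × ℤ)) (h : ∀ x, a x ≠ none → x ∈ F) :
    pop a ≤ F.card * 4 := by
  rw [pop_eq F h]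
  have := Finset.sum_le_card_nsmul F (fun x => wt (a x)) 4 fun x _ => wt_le _
  simpa using this

theorem le_pop {a : ℤ × ℤ → S} (hfin : {x | a x ≠ none}.Finite) (F : Finset (ℤ × ℤ)) :
    ∑ x ∈ F, wt (a x) ≤ pop a := by
  rw [pop_eq (F ∪ hfin.toFinset)]
  · exact Finset.sum_le_sum_of_subset Finset.subset_union_left
  · intro x hx
    exact Finset.mem_union_right _ (by simpa using hx)

theorem pop_pos {a : ℤ × ℤ → S} (hfin : {x | a x ≠ none}.Finite) (h : a ≠ fun _ => none) :
    1 ≤ pop a := by
  obtain ⟨x, hx⟩ : ∃ x, a x ≠ none := by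
    by_contra hcon
    push Not at hcon
    exact h (funext hcon)
  have h1 := le_pop hfin {x}
  rw [Finset.sum_singleton] at h1
  exact (wt_pos _ hx).trans h1

theorem pop_ini_le (L : ℕ) : pop (ini L) ≤ 16 * L := by
  classical
  have h := pop_le_card (a := ini L) ((Finset.range L ×ˢ Finset.range 4).image
    (fun p : ℕ × ℕ => ((p.2 + p.1 - 1 : ℤ), (p.1 - p.2 + 2 : ℤ)))) ?_
  · refine h.trans ?_
    have h2 := Finset.card_image_le (s := Finset.range L ×ˢ Finset.range 4)
      (f := fun p : ℕ × ℕ => ((p.2 + p.1 - 1 : ℤ), (p.1 - p.2 + 2 : ℤ)))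
    rw [Finset.card_product, Finset.card_range, Finset.card_range] at h2
    omega
  · rintro ⟨x1, x2⟩ hx
    simp only [ini] at hx
    split_ifs at hx with h
    · have h2 : (x1 - x2) % 2 = 1 ∧ -3 ≤ x1 - x2 ∧ x1 - x2 ≤ 3 := by
        by_contra hcon
        apply hx
        funext d
        simp only [band, none, decide_eq_false_iff_not]
        push_cast
        rintro ⟨h3, h4, h5, -⟩
        exact hcon ⟨by simpa using h3, by linarith, by linarith⟩
      simp only [Finset.mem_image, Finset.mem_product, Finset.mem_range, Prod.mk.injEq]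
      refine ⟨(((x1 + x2 - 1) / 2).toNat, ((x1 - x2 + 3) / 2).toNat), ⟨?_, ?_⟩, ?_, ?_⟩
      · omega
      · omega
      · omega
      · omega
    · exact absurd rfl hx

theorem le_pop_iter (L t : ℕ) (h : t ≤ L) :
    t * (L - t) * 4 ≤ pop ((G rule)^[t] (ini L)) := by
  classical
  have h1 := le_pop (finite_iter (ini_finite L) t) ((Finset.range t ×ˢ Finset.range (L - t)).image
    (fun p : ℕ × ℕ => ((1 + p.1 + p.2 : ℤ), (t + p.2 - p.1 : ℤ))))
  refine le_trans (le_of_eq ?_) h1
  rw [Finset.sum_image]
  · have h2 : ∀ p ∈ Finset.range t ×ˢ Finset.range (L - t),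
        wt ((G rule)^[t] (ini L) ((1 + p.1 + p.2 : ℤ), (t + p.2 - p.1 : ℤ))) = 4 := by
      rintro ⟨i, j⟩ hp
      rw [Finset.mem_product, Finset.mem_range, Finset.mem_range] at hp
      simp only at hp
      rw [iter_ini]
      · have h3 : band t (((1 + i + j : ℤ)) - (t + j - i : ℤ)) = full := by
          funext d
          simp only [band, full, decide_eq_true_eq]
          omega
        simp only
        rw [h3, wt_full]
      · simp only
        omega
      · simp only
        omega
    rw [Finset.sum_congr rfl h2, Finset.sum_const, Finset.card_product, Finset.card_range,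
      Finset.card_range, smul_eq_mul]
  · rintro ⟨i, j⟩ - ⟨i', j'⟩ - hij
    simp only [Prod.mk.injEq] at hij ⊢
    omega

theorem growth (M : ℕ) : ∃ (a : ℤ × ℤ → S) (t : ℕ), (a ≠ fun _ => none) ∧
    {x | a x ≠ none}.Finite ∧ M * pop a < pop ((G rule)^[t] a) := by
  refine ⟨ini (2 * (8 * M + 1)), 8 * M + 1, ?_, ini_finite _, ?_⟩
  · intro h
    have h1 := congrFun (congrFun h (1, 0)) 0
    have h2 : ini (2 * (8 * M + 1)) (1, 0) = band 0 1 := by
      unfold ini
      rw [if_pos]
      · norm_num
      · exact ⟨by norm_num, by push_cast; linarith⟩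
    rw [h2] at h1
    exact absurd h1 (by decide)
  · have h1 := pop_ini_le (2 * (8 * M + 1))
    have h2 := le_pop_iter (2 * (8 * M + 1)) (8 * M + 1) (by omega)
    have h3 : 2 * (8 * M + 1) - (8 * M + 1) = 8 * M + 1 := by omega
    rw [h3] at h2
    refine lt_of_lt_of_le ?_ h2
    calc M * pop (ini (2 * (8 * M + 1))) ≤ M * (16 * (2 * (8 * M + 1))) :=
          Nat.mul_le_mul_left _ h1
      _ < (8 * M + 1) * (8 * M + 1) * 4 := by nlinarith

theorem main (C : ℝ) : ∃ (a : ℤ × ℤ → S) (m n : ℕ), (a ≠ fun _ => none) ∧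
    {x | a x ≠ none}.Finite ∧ IsGreatest (Set.range fun t => pop ((G rule)^[t] a)) m ∧
    IsLeast (Set.range fun t => pop ((G rule)^[t] a)) n ∧ 1 ≤ n ∧ C < (m : ℝ) / n := by
  obtain ⟨M, hM⟩ := exists_nat_ge C
  obtain ⟨a, t, ha, hfin, ht⟩ := growth M
  obtain ⟨N, hN⟩ := exists_inv hfin
  have hne : (Set.range fun t => pop ((G rule)^[t] a)).Nonempty := ⟨_, ⟨0, rfl⟩⟩
  have hbdd : BddAbove (Set.range fun t => pop ((G rule)^[t] a)) := by
    refine ⟨(box N).card * 4, ?_⟩
    rintro _ ⟨t, rfl⟩
    exact pop_le_card _ fun x hx => by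
      by_contra hx'
      exact hx (inv_zero (inv_iter hN t) hx')
  have h1 := Nat.sSup_mem hne hbdd
  have h2 := Nat.sInf_mem hne
  have h3 : pop ((G rule)^[t] a) ≤ sSup (Set.range fun t => pop ((G rule)^[t] a)) :=
    le_csSup hbdd ⟨t, rfl⟩
  have h4 : sInf (Set.range fun t => pop ((G rule)^[t] a)) ≤ pop a := Nat.sInf_le ⟨0, rfl⟩
  have h5 : 1 ≤ sInf (Set.range fun t => pop ((G rule)^[t] a)) := by
    obtain ⟨s, hs⟩ := h2
    rw [← hs]
    exact pop_pos (finite_iter hfin s) (ne_none_iter ha s)
  refine ⟨a, _, _, ha, hfin, ⟨h1, fun x hx => le_csSup hbdd hx⟩,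
    ⟨h2, fun x hx => Nat.sInf_le hx⟩, h5, ?_⟩
  generalize sSup (Set.range fun t => pop ((G rule)^[t] a)) = m at *
  generalize sInf (Set.range fun t => pop ((G rule)^[t] a)) = n at *
  have h6 : M * n < m := lt_of_le_of_lt (Nat.mul_le_mul_left _ h4) (lt_of_lt_of_le ht h3)
  have h7 : (0 : ℝ) < n := by exact_mod_cast h5
  rw [lt_div_iff₀ h7]
  have h8 : (M : ℝ) * n < m := by exact_mod_cast h6
  nlinarith

/-- transfer to another description of the cell states -/
theorem transfer {Q : Type} (e : Q ≃ S) (z : Q) (hz : e z = none) (w : Q → ℕ)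
    (hw : ∀ q, w q = wt (e q)) (F : (ℤ × ℤ → Q) → (ℤ × ℤ → Q))
    (hF : ∀ α, (fun x => e (F α x)) = G rule (fun x => e (α x))) :
    Function.Injective F ∧ (∀ α, {x | α x ≠ z}.Finite → ∃ p ≥ 1, F^[p] α = α) ∧
      ∀ C : ℝ, ∃ (α : ℤ × ℤ → Q) (m n : ℕ), {x | α x ≠ z}.Finite ∧ (∃ x, α x ≠ z) ∧
        IsGreatest (Set.range fun t => ∑ᶠ x, w (F^[t] α x)) m ∧
        IsLeast (Set.range fun t => ∑ᶠ x, w (F^[t] α x)) n ∧ 1 ≤ n ∧ C < (m : ℝ) / n := by
  have hE : ∀ α β : ℤ × ℤ → Q, (fun x => e (α x)) = (fun x => e (β x)) → α = β := by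
    intro α β h
    funext x
    exact e.injective (congrFun h x)
  have hiter : ∀ (t : ℕ) (α : ℤ × ℤ → Q),
      (fun x => e (F^[t] α x)) = (G rule)^[t] (fun x => e (α x)) := by
    intro t
    induction t with
    | zero => intro α; rfl
    | succ t ih =>
        intro α
        rw [Function.iterate_succ_apply, Function.iterate_succ_apply, ih, hF]
  have hset : ∀ α : ℤ × ℤ → Q, {x | α x ≠ z} = {x | (fun x => e (α x)) x ≠ none} := by
    intro α
    ext x
    simp only [Set.mem_setOf_eq, ← hz, ne_eq, e.injective.eq_iff]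
  have hpop : ∀ (t : ℕ) (α : ℤ × ℤ → Q),
      ∑ᶠ x, w (F^[t] α x) = pop ((G rule)^[t] (fun x => e (α x))) := by
    intro t α
    rw [← hiter]
    unfold pop
    exact finsum_congr fun x => hw _
  refine ⟨?_, ?_, ?_⟩
  · intro α β h
    apply hE
    apply G_inj
    rw [← hF, ← hF, h]
  · intro α hα
    rw [hset] at hα
    obtain ⟨p, hp, hper⟩ := periodic hα
    refine ⟨p, hp, hE _ _ ?_⟩
    rw [hiter, hper]
  · intro C
    obtain ⟨a, m, n, ha, hfin, hm, hn, h1, hC⟩ := main C
    have ha' : (fun x => e ((fun x => e.symm (a x)) x)) = a := by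
      funext x
      simp
    refine ⟨fun x => e.symm (a x), m, n, ?_, ?_, ?_, ?_, h1, hC⟩
    · rw [hset, ha']
      exact hfin
    · by_contra hcon
      push Not at hcon
      apply ha
      funext x
      have h2 := hcon x
      rw [← hz, ← h2]
      simp
    · have h2 : (fun t => ∑ᶠ x, w (F^[t] (fun x => e.symm (a x)) x)) =
          fun t => pop ((G rule)^[t] a) := by
        funext t
        rw [hpop, ha']
      rw [h2]
      exact hm
    · have h2 : (fun t => ∑ᶠ x, w (F^[t] (fun x => e.symm (a x)) x)) =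
          fun t => pop ((G rule)^[t] a) := by
        funext t
        rw [hpop, ha']
      rw [h2]
      exact hn

end Pool.Agent.Q136.ESP
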